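import Mathlib

set_option autoImplicit false

/-!
Sets of topological recurrence, sets of measurable recurrence, and amenability of a discrete group.
-/

namespace Pool.Agent.H771R2.Rec

open MeasureTheory Set

universe u

/-- `R` is a set of topological recurrence: for every minimal action of `G` by homeomorphisms on a
compact metric space `X` and every non-empty open `U ⊆ X`, some `g ∈ R`, `g ≠ 1`, satisfies
`U ∩ T_g⁻¹ U ≠ ∅` (where `T_g x = g • x`). -/
def TopRec {G : Type u} [Group G] (R : Set G) : Prop :=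
  ∀ (X : Type u) [MetricSpace X] [CompactSpace X] [MulAction G X] [ContinuousConstSMul G X]
    [MulAction.IsMinimal G X] (U : Set X), IsOpen U → U.Nonempty →
    ∃ g ∈ R, g ≠ 1 ∧ (U ∩ (fun x => g • x) ⁻¹' U).Nonempty

/-- `R` is a set of measurable recurrence: for every measure-preserving action of `G` on a
probability space `(X, μ)` and every measurable `A` with `μ A > 0`, some `g ∈ R`, `g ≠ 1`, satisfies
`μ (A ∩ T_g⁻¹ A) > 0` (where `T_g x = g • x`). -/
def MeasRec {G : Type u} [Group G] (R : Set G) : Prop :=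
  ∀ (X : Type u) [MeasurableSpace X] (μ : Measure X) [IsProbabilityMeasure μ] [MulAction G X]
    [MeasurableConstSMul G X] [SMulInvariantMeasure G X μ] (A : Set X),
    MeasurableSet A → 0 < μ A →
    ∃ g ∈ R, g ≠ 1 ∧ 0 < μ (A ∩ (fun x => g • x) ⁻¹' A)

/-- `f` is a bounded real function. -/
def Bdd {G : Type u} (f : G → ℝ) : Prop := ∃ C : ℝ, ∀ x, |f x| ≤ C

/-- The discrete group `G` is amenable: the space `ℓ^∞(G)` of bounded real functions on `G` carries a
left-invariant mean, i.e. a positive linear functional `m` with `m(1) = 1` which takes the same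
value on `f` and on each left translate `x ↦ f (g x)`. (The values of `m` on unbounded functions are
irrelevant.) -/
def Amenable (G : Type u) [Group G] : Prop :=
  ∃ m : (G → ℝ) → ℝ,
    (∀ f f' : G → ℝ, Bdd f → Bdd f' → m (fun x => f x + f' x) = m f + m f') ∧
    (∀ (c : ℝ) (f : G → ℝ), Bdd f → m (fun x => c * f x) = c * m f) ∧
    (∀ f : G → ℝ, Bdd f → (∀ x, 0 ≤ f x) → 0 ≤ m f) ∧
    m (fun _ => 1) = 1 ∧
    (∀ (g : G) (f : G → ℝ), Bdd f → m (fun x => f (g * x)) = m f)

/-- The indicator function of a set. -/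
noncomputable def ind {G : Type u} (A : Set G) : G → ℝ := A.indicator (fun _ => (1 : ℝ))

theorem bdd_ind {G : Type u} (A : Set G) : Bdd (ind A) := by
  refine ⟨1, fun x => ?_⟩
  by_cases h : x ∈ A <;> simp [ind, Set.indicator, h]

theorem Bdd.add {G : Type u} {f f' : G → ℝ} (h : Bdd f) (h' : Bdd f') :
    Bdd (fun x => f x + f' x) := by
  obtain ⟨C, hC⟩ := h
  obtain ⟨C', hC'⟩ := h'
  exact ⟨C + C', fun x => (abs_add_le _ _).trans (add_le_add (hC x) (hC' x))⟩

/-- If the subgroup `φ(A)` of `G` acts on a set `Y` through `A`, there is an equivariant map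
`G → Y`. -/
theorem exists_equivariant {A : Type*} [Group A] {G : Type*} [Group G] (φ : A →* G)
    (hφ : Function.Injective φ) {Y : Type*} [MulAction A Y] (y₀ : Y) :
    ∃ w : G → Y, ∀ (u : A) (g : G), w (φ u * g) = u • w g := by
  classical
  let s := QuotientGroup.rightRel φ.range
  let r : G → G := fun g => Quotient.out (Quotient.mk s g)
  have hr : ∀ g, ∃ u : A, φ u = g * (r g)⁻¹ := by
    intro g
    have h1 : s.r (r g) g := Quotient.exact (Quotient.out_eq (Quotient.mk s g))
    have h2 : g * (r g)⁻¹ ∈ φ.range := QuotientGroup.rightRel_apply.mp h1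
    exact h2
  choose c hc using hr
  refine ⟨fun g => c g • y₀, fun u g => ?_⟩
  have h1 : r (φ u * g) = r g := by
    have : Quotient.mk s (φ u * g) = Quotient.mk s g := by
      apply Quotient.sound
      change s.r _ _
      refine QuotientGroup.rightRel_apply.mpr ?_
      exact ⟨u⁻¹, by simp⟩
    simp only [r, this]
  have h2 : c (φ u * g) = u * c g := by
    apply hφ
    rw [hc, h1, map_mul, hc, mul_assoc]
  simp only [h2, mul_smul]

/-- Ping-pong contradicts amenability. -/
theorem not_amenable_of_pingpong {A : Type*} [Group A] {G : Type u} [Group G] (φ : A →* G)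
    (hφ : Function.Injective φ) {Y : Type*} [MulAction A Y] (y₀ : Y) (a b : A)
    (P Q P' Q' : Set Y) (hPQ : Disjoint P Q) (hP : Disjoint (P ∪ Q) (P' ∪ Q'))
    (hPQ' : Disjoint P' Q')
    (ha : ∀ y, y ∉ Q → a • y ∈ P) (hb : ∀ y, y ∉ Q' → b • y ∈ P') : ¬ Amenable G := by
  rintro ⟨m, hadd, hsmul, hpos, hone, hinv⟩
  obtain ⟨w, hw⟩ := exists_equivariant φ hφ y₀
  -- monotone
  have hmono : ∀ f f' : G → ℝ, Bdd f → Bdd f' → (∀ x, f x ≤ f' x) → m f ≤ m f' := by
    intro f f' hf hf' h
    have hb : Bdd (fun x => (-1 : ℝ) * f x) := by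
      obtain ⟨C, hC⟩ := hf
      exact ⟨C, fun x => by simpa using hC x⟩
    have h1 := hpos (fun x => f' x + (-1) * f x) (hf'.add hb) (fun x => by
      have := h x
      linarith)
    rw [hadd f' _ hf' hb, hsmul _ _ hf] at h1
    linarith
  have hu1 : m (ind univ) = 1 := by
    have : (ind univ : G → ℝ) = fun _ => 1 := by funext x; simp [ind]
    rw [this, hone]
  -- for each pair
  have key : ∀ (c : A) (P Q : Set Y), (∀ y, y ∉ Q → c • y ∈ P) →
      1 ≤ m (ind (w ⁻¹' P)) + m (ind (w ⁻¹' Q)) := by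
    intro c P Q h
    have h1 : m (fun x => ind (w ⁻¹' P) (φ c * x)) = m (ind (w ⁻¹' P)) :=
      hinv (φ c) _ (bdd_ind _)
    have hb : Bdd (fun x => ind (w ⁻¹' P) (φ c * x)) := by
      obtain ⟨C, hC⟩ := bdd_ind (w ⁻¹' P)
      exact ⟨C, fun x => hC _⟩
    have h2 : m (ind univ) ≤ m (fun x => ind (w ⁻¹' P) (φ c * x) + ind (w ⁻¹' Q) x) := by
      apply hmono _ _ (bdd_ind _) (hb.add (bdd_ind _))
      intro x
      simp only [ind, Set.indicator]
      by_cases hx : w x ∈ Q
      · simp only [mem_univ, if_true, mem_preimage, hx]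
        split_ifs <;> norm_num
      · have : w (φ c * x) ∈ P := by rw [hw]; exact h _ hx
        simp only [mem_univ, if_true, mem_preimage, this]
        split_ifs <;> norm_num
    rw [hadd _ _ hb (bdd_ind _), h1, hu1] at h2
    exact h2
  have k1 := key a P Q ha
  have k2 := key b P' Q' hb
  have h3 : m (fun x => (ind (w ⁻¹' P) x + ind (w ⁻¹' Q) x) +
      (ind (w ⁻¹' P') x + ind (w ⁻¹' Q') x)) ≤ m (ind univ) := by
    apply hmono _ _ (((bdd_ind _).add (bdd_ind _)).add ((bdd_ind _).add (bdd_ind _))) (bdd_ind _)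
    intro x
    simp only [ind, Set.indicator, mem_univ, if_true, mem_preimage]
    have e1 : ¬ (w x ∈ P ∧ w x ∈ Q) := fun h => Set.disjoint_left.mp hPQ h.1 h.2
    have e2 : ¬ (w x ∈ P' ∧ w x ∈ Q') := fun h => Set.disjoint_left.mp hPQ' h.1 h.2
    have e3 : ¬ ((w x ∈ P ∨ w x ∈ Q) ∧ (w x ∈ P' ∨ w x ∈ Q')) :=
      fun h => Set.disjoint_left.mp hP h.1 h.2
    by_cases q1 : w x ∈ P <;> by_cases q2 : w x ∈ Q <;> by_cases q3 : w x ∈ P' <;>
      by_cases q4 : w x ∈ Q' <;> simp [q1, q2, q3, q4] at e1 e2 e3 ⊢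
  rw [hadd _ _ ((bdd_ind _).add (bdd_ind _)) ((bdd_ind _).add (bdd_ind _)),
    hadd _ _ (bdd_ind _) (bdd_ind _), hadd _ _ (bdd_ind _) (bdd_ind _), hu1] at h3
  linarith

end Pool.Agent.H771R2.Rec
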