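import Mathlib
import Pool.Agent.H771R2.Rec.Defs

set_option autoImplicit false

/-!
`SL₂(K)` for a field `K` of characteristic zero with more than continuum many elements: it is not
amenable, but every action by homeomorphisms on a compact metric space is trivial.
-/

namespace Pool.Agent.H771R2.Rec

open MeasureTheory Set Matrix Cardinal

universe u

abbrev SL (K : Type u) [CommRing K] := Matrix.SpecialLinearGroup (Fin 2) K

section ring
variable {K : Type u} [CommRing K]

/-- upper elementary matrix -/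
def E12 (a : K) : SL K := ⟨!![1, a; 0, 1], by simp [Matrix.det_fin_two]⟩
/-- lower elementary matrix -/
def E21 (a : K) : SL K := ⟨!![1, 0; a, 1], by simp [Matrix.det_fin_two]⟩

theorem sl_ext {g h : SL K} (h00 : g 0 0 = h 0 0) (h01 : g 0 1 = h 0 1) (h10 : g 1 0 = h 1 0)
    (h11 : g 1 1 = h 1 1) : g = h := by
  ext i j
  fin_cases i <;> fin_cases j <;> assumption

theorem E12_mul (a b : K) : E12 a * E12 b = E12 (a + b) := by
  apply sl_ext <;> simp [E12, Matrix.mul_apply, Fin.sum_univ_two, add_comm]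

theorem E21_mul (a b : K) : E21 a * E21 b = E21 (a + b) := by
  apply sl_ext <;> simp [E21, Matrix.mul_apply, Fin.sum_univ_two]

theorem E12_zero : E12 (0 : K) = 1 := by
  apply sl_ext <;> simp [E12]

theorem E12_inv (a : K) : (E12 a)⁻¹ = E12 (-a) := by
  rw [inv_eq_iff_mul_eq_one, E12_mul, add_neg_cancel, E12_zero]

/-- Weyl element -/
def wl : SL K := ⟨!![0, 1; -1, 0], by simp [Matrix.det_fin_two]⟩

theorem wl_conj (a : K) : wl * E12 a * wl⁻¹ = E21 (-a) := by
  rw [mul_inv_eq_iff_eq_mul]
  apply sl_ext <;> simp [E12, E21, wl, Matrix.mul_apply, Fin.sum_univ_two]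

end ring

section field
variable {K : Type u} [Field K]

/-- diagonal matrix -/
noncomputable def dg (t : K) (ht : t ≠ 0) : SL K := ⟨!![t, 0; 0, t⁻¹], by simp [Matrix.det_fin_two, ht]⟩

theorem dg_conj (t : K) (ht : t ≠ 0) (a : K) : dg t ht * E12 a * (dg t ht)⁻¹ = E12 (t ^ 2 * a) := by
  rw [mul_inv_eq_iff_eq_mul]
  apply sl_ext <;> simp [E12, dg, Matrix.mul_apply, Fin.sum_univ_two]
  field_simp

/-- A normal subgroup of `SL₂(K)` containing one non-trivial elementary matrix is everything
(characteristic not two). -/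
theorem normal_eq_top [CharZero K] (N : Subgroup (SL K)) [hN : N.Normal] (c : K) (hc : c ≠ 0)
    (h : E12 c ∈ N) : N = ⊤ := by
  have h1 : ∀ t : K, E12 (t ^ 2 * c) ∈ N := by
    intro t
    by_cases ht : t = 0
    · subst ht; simp [E12_zero, N.one_mem]
    · rw [← dg_conj t ht]; exact hN.conj_mem _ h _
  have h2 : ∀ x : K, E12 x ∈ N := by
    intro x
    have e : x = ((x / c + 1) / 2) ^ 2 * c + (-(((x / c - 1) / 2) ^ 2 * c)) := by
      field_simp; ring
    rw [e, ← E12_mul, ← E12_inv]
    exact N.mul_mem (h1 _) (N.inv_mem (h1 _))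
  have h3 : ∀ x : K, E21 x ∈ N := by
    intro x
    have := hN.conj_mem _ (h2 (-x)) wl
    rwa [wl_conj, neg_neg] at this
  have h4 : ∀ g : SL K, g 1 0 ≠ 0 → g ∈ N := by
    intro g hg
    have hd : g 0 0 * g 1 1 - g 0 1 * g 1 0 = 1 := by
      have := g.2; rwa [Matrix.det_fin_two] at this
    have : g = E12 ((g 0 0 - 1) / g 1 0) * E21 (g 1 0) * E12 ((g 1 1 - 1) / g 1 0) := by
      apply sl_ext <;> simp [E12, E21, Matrix.mul_apply, Fin.sum_univ_two]
      · field_simp; ring
      · field_simp; linear_combination -hd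
      · field_simp; ring
    rw [this]
    exact N.mul_mem (N.mul_mem (h2 _) (h3 _)) (h2 _)
  rw [eq_top_iff]
  intro g _
  by_cases hg : g 1 0 = 0
  · have hd : g 0 0 * g 1 1 - g 0 1 * g 1 0 = 1 := by
      have := g.2; rwa [Matrix.det_fin_two] at this
    have h5 : g * E21 1 ∈ N := by
      apply h4
      simp [E21, Matrix.mul_apply, Fin.sum_univ_two, hg]
      intro h0
      rw [h0, hg] at hd
      simp at hd
    have := N.mul_mem h5 (N.inv_mem (h3 1))
    rwa [mul_inv_cancel_right] at this
  · exact h4 g hg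

/-- Every action of `SL₂(K)` by homeomorphisms on a compact metric space is trivial if `K` has more
than continuum many elements. -/
theorem action_trivial {K : Type} [Field K] [CharZero K] (hK : 𝔠 < #K)
    (X : Type) [MetricSpace X] [CompactSpace X] [MulAction (SL K) X]
    [ContinuousConstSMul (SL K) X] (g : SL K) (x : X) : g • x = x := by
  have : Nonempty X := ⟨x⟩
  let d := TopologicalSpace.denseSeq X
  have hd : DenseRange d := TopologicalSpace.denseRange_denseSeq X
  let F : K → (ℕ → ℕ → ℝ) := fun a n m => dist ((E12 a) • (d n)) (d m)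
  have hF : ¬ Function.Injective F := by
    intro hF
    have h1 := Cardinal.mk_le_of_injective hF
    have h2 : #(ℕ → ℕ → ℝ) = 𝔠 := by
      simp [Cardinal.mk_real]
    rw [h2] at h1
    exact absurd h1 (not_le.mpr hK)
  unfold Function.Injective at hF
  push Not at hF
  obtain ⟨a, b, hab, hne⟩ := hF
  -- the kernel of the action
  let N : Subgroup (SL K) := (MulAction.toPermHom (SL K) X).ker
  have hcont : ∀ g : SL K, Continuous (fun x : X => g • x) := fun g => continuous_const_smul g
  have key : ∀ y : X, (E12 a) • y = (E12 b) • y := by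
    have h1 : ∀ n, (E12 a) • (d n) = (E12 b) • (d n) := by
      intro n
      have h2 : ∀ z : X, dist ((E12 a) • (d n)) z = dist ((E12 b) • (d n)) z := by
        intro z
        have c1 : Continuous (fun z => dist ((E12 a) • (d n)) z) := by fun_prop
        have c2 : Continuous (fun z => dist ((E12 b) • (d n)) z) := by fun_prop
        have := hd.equalizer c1 c2 (by
          funext m
          exact congrFun (congrFun hab n) m)
        exact congrFun this z
      have := h2 ((E12 b) • (d n))
      rw [dist_self] at this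
      exact dist_eq_zero.mp this
    intro y
    have := hd.equalizer (hcont (E12 a)) (hcont (E12 b)) (by funext n; exact h1 n)
    exact congrFun this y
  have hmem : E12 (b - a) ∈ N := by
    rw [MonoidHom.mem_ker]
    ext y
    simp only [MulAction.toPermHom_apply, MulAction.toPerm_apply, Equiv.Perm.coe_one, id]
    have : E12 (b - a) = (E12 a)⁻¹ * E12 b := by rw [E12_inv, E12_mul]; congr 1; ring
    rw [this, mul_smul, ← key, inv_smul_smul]
  have htop := normal_eq_top N (b - a) (sub_ne_zero.mpr hne.symm) hmem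
  have : g ∈ N := htop ▸ Subgroup.mem_top g
  rw [MonoidHom.mem_ker] at this
  have := congrFun (congrArg DFunLike.coe this) x
  simpa using this

end field

/-! Non-amenability: `SL₂(ℤ)` plays ping-pong on non-zero integer vectors. -/

/-- nonzero integer vectors -/
abbrev Vec := {v : Fin 2 → ℤ // v ≠ 0}

/-- the vector `g v` -/
def mv (g : SL ℤ) (v : Fin 2 → ℤ) : Fin 2 → ℤ := Matrix.mulVec (g : Matrix (Fin 2) (Fin 2) ℤ) v

theorem mv_mul (g h : SL ℤ) (v : Fin 2 → ℤ) : mv (g * h) v = mv g (mv h v) := by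
  unfold mv
  rw [Matrix.mulVec_mulVec]
  exact congrArg (fun M => Matrix.mulVec M v) (Matrix.SpecialLinearGroup.coe_mul g h)

theorem mv_one (v : Fin 2 → ℤ) : mv 1 v = v := by
  unfold mv
  rw [Matrix.SpecialLinearGroup.coe_one, Matrix.one_mulVec]

theorem mv_ne (g : SL ℤ) {v : Fin 2 → ℤ} (hv : v ≠ 0) : mv g v ≠ 0 := by
  intro h
  apply hv
  have h1 := mv_mul g⁻¹ g v
  rw [inv_mul_cancel, mv_one, h] at h1
  rw [h1]
  unfold mv
  rw [Matrix.mulVec_zero]

instance : MulAction (SL ℤ) Vec where
  smul g v := ⟨mv g v.1, mv_ne g v.2⟩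
  one_smul v := Subtype.ext (mv_one v.1)
  mul_smul g h v := Subtype.ext (mv_mul g h v.1)

theorem smul_E12 (v : Vec) : (E12 (4 : ℤ) • v).1 0 = v.1 0 + 4 * v.1 1 ∧
    (E12 (4 : ℤ) • v).1 1 = v.1 1 := by
  constructor
  · change mv (E12 4) v.1 0 = _
    simp [mv, E12, Matrix.mulVec, dotProduct, Fin.sum_univ_two]
  · change mv (E12 4) v.1 1 = _
    simp [mv, E12, Matrix.mulVec, dotProduct, Fin.sum_univ_two]

theorem smul_E21 (v : Vec) : (E21 (4 : ℤ) • v).1 0 = v.1 0 ∧
    (E21 (4 : ℤ) • v).1 1 = 4 * v.1 0 + v.1 1 := by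
  constructor
  · change mv (E21 4) v.1 0 = _
    simp [mv, E21, Matrix.mulVec, dotProduct, Fin.sum_univ_two]
  · change mv (E21 4) v.1 1 = _
    simp [mv, E21, Matrix.mulVec, dotProduct, Fin.sum_univ_two]

theorem vec_ne (v : Vec) : v.1 0 ≠ 0 ∨ v.1 1 ≠ 0 := by
  by_contra h
  push Not at h
  apply v.2
  funext i
  fin_cases i
  · exact h.1
  · exact h.2

/-- The set of vectors `(x, y)` with `x / y ≥ 2` or `y = 0`. -/
def Pv (x y : ℤ) : Prop := (0 < y ∧ 2 * y ≤ x) ∨ (y < 0 ∧ x ≤ 2 * y) ∨ y = 0
/-- The set of vectors `(x, y)` with `x / y < -2`. -/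
def Qv (x y : ℤ) : Prop := (0 < y ∧ x < -2 * y) ∨ (y < 0 ∧ -2 * y < x)

theorem not_amenable_SL2 (K : Type u) [Field K] [CharZero K] : ¬ Amenable (SL K) := by
  have hinj : Function.Injective (Matrix.SpecialLinearGroup.map (n := Fin 2) (Int.castRingHom K)) := by
    intro g h e
    ext i j
    have := congrArg (fun m : SL K => m i j) e
    simpa using this
  refine not_amenable_of_pingpong (Matrix.SpecialLinearGroup.map (n := Fin 2) (Int.castRingHom K)) hinj
    (Y := Vec) ⟨![1, 0], by simp⟩ (E12 4) (E21 4)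
    {v | Pv (v.1 0) (v.1 1)} {v | Qv (v.1 0) (v.1 1)}
    {v | Pv (v.1 1) (v.1 0)} {v | Qv (v.1 1) (v.1 0)}
    ?_ ?_ ?_ ?_ ?_
  · rw [Set.disjoint_left]
    intro v h1 h2
    have := vec_ne v
    simp only [Set.mem_ofPred_eq, Pv, Qv] at h1 h2
    omega
  · rw [Set.disjoint_left]
    intro v h1 h2
    have := vec_ne v
    simp only [Set.mem_ofPred_eq, Pv, Qv, Set.mem_union] at h1 h2
    omega
  · rw [Set.disjoint_left]
    intro v h1 h2
    have := vec_ne v
    simp only [Set.mem_ofPred_eq, Pv, Qv] at h1 h2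
    omega
  · intro v h
    have h0 := vec_ne v
    have h1 := smul_E12 v
    simp only [Set.mem_ofPred_eq, Pv, Qv, h1.1, h1.2] at h ⊢
    omega
  · intro v h
    have h0 := vec_ne v
    have h1 := smul_E21 v
    simp only [Set.mem_ofPred_eq, Pv, Qv, h1.1, h1.2] at h ⊢
    omega

end Pool.Agent.H771R2.Rec
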