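import Mathlib
import Pool.Agent.H771R2.Rec.Defs

set_option autoImplicit false

/-! Failure of topological recurrence from syndetic sets, for countable groups. -/

namespace Pool.Agent.H771R2.Rec

open MeasureTheory Set

universe u

/-- `{0,1}^G` with the action `(g • ω)(h) = ω (h g)`. -/
def Shift (G : Type u) : Type u := G → Bool

namespace Shift

variable {G : Type u} [Group G]

instance : TopologicalSpace (Shift G) := inferInstanceAs (TopologicalSpace (G → Bool))
instance : CompactSpace (Shift G) := inferInstanceAs (CompactSpace (G → Bool))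
instance : T2Space (Shift G) := inferInstanceAs (T2Space (G → Bool))
instance [Countable G] : TopologicalSpace.MetrizableSpace (Shift G) :=
  inferInstanceAs (TopologicalSpace.MetrizableSpace (G → Bool))

instance : MulAction G (Shift G) where
  smul g ω := fun h => ω (h * g)
  one_smul ω := funext fun h => congrArg ω (mul_one h)
  mul_smul g g' ω := funext fun h => congrArg ω (mul_assoc h g g').symm

theorem smul_apply (g : G) (ω : Shift G) (h : G) : (g • ω) h = ω (h * g) := rfl

omit [Group G] in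
theorem continuous_eval (g : G) : Continuous (fun ω : Shift G => ω g) :=
  continuous_apply (A := fun _ : G => Bool) g

instance : ContinuousConstSMul G (Shift G) where
  continuous_const_smul g := continuous_pi fun h => continuous_eval (h * g)

end Shift

variable {G : Type u} [Group G]

/-- Existence of a minimal non-empty closed invariant subset. -/
theorem exists_minimal_invariant {X : Type u} [TopologicalSpace X] [CompactSpace X]
    [MulAction G X] (Y : Set X) (hYc : IsClosed Y) (hYn : Y.Nonempty)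
    (hYi : ∀ (g : G), ∀ x ∈ Y, g • x ∈ Y) :
    ∃ Z : Set X, Z ⊆ Y ∧ IsClosed Z ∧ Z.Nonempty ∧ (∀ (g : G), ∀ x ∈ Z, g • x ∈ Z) ∧
      ∀ W : Set X, W ⊆ Z → IsClosed W → W.Nonempty → (∀ (g : G), ∀ x ∈ W, g • x ∈ W) → W = Z := by
  let 𝓕 : Set (Set X) := {Z | Z ⊆ Y ∧ IsClosed Z ∧ Z.Nonempty ∧ ∀ (g : G), ∀ x ∈ Z, g • x ∈ Z}
  obtain ⟨Z, hZ⟩ := zorn_superset 𝓕 (by
    intro c hc hchain
    by_cases hce : c.Nonempty
    · have hne : Nonempty c := hce.to_subtype
      refine ⟨⋂₀ c, ⟨?_, ?_, ?_, ?_⟩, fun s hs => sInter_subset_of_mem hs⟩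
      · obtain ⟨s, hs⟩ := hce
        exact (sInter_subset_of_mem hs).trans (hc hs).1
      · exact isClosed_sInter fun s hs => (hc hs).2.1
      · apply IsCompact.nonempty_sInter_of_directed_nonempty_isCompact_isClosed
        · exact IsChain.directedOn hchain.symm
        · intro s hs; exact (hc hs).2.2.1
        · intro s hs; exact (hc hs).2.1.isCompact
        · intro s hs; exact (hc hs).2.1
      · intro g x hx s hs
        exact (hc hs).2.2.2 g x (hx s hs)
    · refine ⟨Y, ⟨subset_rfl, hYc, hYn, hYi⟩, ?_⟩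
      intro s hs
      exact absurd ⟨s, hs⟩ hce)
  refine ⟨Z, hZ.prop.1, hZ.prop.2.1, hZ.prop.2.2.1, hZ.prop.2.2.2, ?_⟩
  intro W hWZ hWc hWn hWi
  exact subset_antisymm hWZ (hZ.2 ⟨hWZ.trans hZ.prop.1, hWc, hWn, hWi⟩ hWZ)

/-- If `S ⊆ G` is left syndetic (`∀ g, ∃ f ∈ F, f g ∈ S`) and `S ∩ r S = ∅` for the elements `r ≠ 1`
of `R`, then `R` is not a set of topological recurrence. -/
theorem not_topRec [Countable G] (S : Set G) (F : Finset G) (hF : ∀ g, ∃ f ∈ F, f * g ∈ S)
    (R : Set G) (hR : ∀ r ∈ R, r ≠ 1 → ∀ g ∈ S, r * g ∉ S) : ¬ TopRec R := by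
  classical
  intro hT
  let Y : Set (Shift G) := {ω | (∀ g, ∃ f ∈ F, ω (f * g) = true) ∧
    ∀ r ∈ R, r ≠ 1 → ∀ g, ¬ (ω g = true ∧ ω (r * g) = true)}
  have hYc : IsClosed Y := by
    have e : Y = (⋂ g, {ω : Shift G | ∃ f ∈ F, ω (f * g) = true}) ∩
        ⋂ r ∈ {r | r ∈ R ∧ r ≠ 1}, ⋂ g, {ω : Shift G | ¬ (ω g = true ∧ ω (r * g) = true)} := by
      ext ω
      simp only [Y, mem_inter_iff, mem_iInter, mem_ofPred_eq]
      constructor
      · rintro ⟨h1, h2⟩
        exact ⟨h1, fun r hr g => h2 r hr.1 hr.2 g⟩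
      · rintro ⟨h1, h2⟩
        exact ⟨h1, fun r hr hr1 g => h2 r ⟨hr, hr1⟩ g⟩
    rw [e]
    refine IsClosed.inter (isClosed_iInter fun g => ?_) (isClosed_biInter fun r _ =>
      isClosed_iInter fun g => ?_)
    · have : {ω : Shift G | ∃ f ∈ F, ω (f * g) = true} = ⋃ f ∈ F, {ω : Shift G | ω (f * g) = true} := by
        ext ω; simp
      rw [this]
      exact F.finite_toSet.isClosed_biUnion fun f _ =>
        isClosed_eq (Shift.continuous_eval _) continuous_const
    · have : {ω : Shift G | ¬ (ω g = true ∧ ω (r * g) = true)} =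
          {ω : Shift G | ω g = false} ∪ {ω : Shift G | ω (r * g) = false} := by
        ext ω
        simp only [mem_ofPred_eq, mem_union]
        cases ω g <;> cases ω (r * g) <;> simp
      rw [this]
      exact (isClosed_eq (Shift.continuous_eval _) continuous_const).union
        (isClosed_eq (Shift.continuous_eval _) continuous_const)
  have hYn : Y.Nonempty := by
    refine ⟨fun g => decide (g ∈ S), ?_, ?_⟩
    · intro g
      obtain ⟨f, hf, h⟩ := hF g
      exact ⟨f, hf, by simpa using h⟩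
    · intro r hr hr1 g h
      exact hR r hr hr1 g (by simpa using h.1) (by simpa using h.2)
  have hYi : ∀ (g : G), ∀ x ∈ Y, g • x ∈ Y := by
    rintro g ω ⟨h1, h2⟩
    refine ⟨fun k => ?_, fun r hr hr1 k => ?_⟩
    · obtain ⟨f, hf, h⟩ := h1 (k * g)
      exact ⟨f, hf, by rw [Shift.smul_apply, mul_assoc]; exact h⟩
    · rw [Shift.smul_apply, Shift.smul_apply, mul_assoc]
      exact h2 r hr hr1 (k * g)
  obtain ⟨Z, hZY, hZc, hZn, hZi, hZm⟩ := exists_minimal_invariant (G := G) Y hYc hYn hYi
  let _ : MetricSpace (Shift G) := TopologicalSpace.metrizableSpaceMetric (Shift G)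
  let _ : MulAction G Z :=
    { smul := fun g x => ⟨g • x.1, hZi g x.1 x.2⟩
      one_smul := fun x => Subtype.ext (one_smul G x.1)
      mul_smul := fun g h x => Subtype.ext (mul_smul g h x.1) }
  have hval : ∀ (g : G) (x : Z), (g • x).1 = g • x.1 := fun _ _ => rfl
  have i1 : CompactSpace Z := isCompact_iff_compactSpace.mp hZc.isCompact
  have i2 : ContinuousConstSMul G Z := ⟨fun g =>
    Continuous.subtype_mk ((continuous_const_smul g).comp continuous_subtype_val) _⟩
  have i3 : MulAction.IsMinimal G Z := ⟨fun x => by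
    let W : Set (Shift G) := Subtype.val '' closure (MulAction.orbit G x)
    have hW : W = Z := by
      apply hZm
      · rintro _ ⟨y, -, rfl⟩; exact y.2
      · exact hZc.isClosedEmbedding_subtypeVal.isClosedMap _ isClosed_closure
      · exact ⟨x.1, x, subset_closure (MulAction.mem_orbit_self x), rfl⟩
      · rintro g _ ⟨y, hy, rfl⟩
        refine ⟨g • y, ?_, rfl⟩
        have h1 : Continuous (fun z : Z => g • z) := continuous_const_smul g
        have h2 : MapsTo (fun z : Z => g • z) (MulAction.orbit G x) (MulAction.orbit G x) := by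
          rintro _ ⟨k, rfl⟩
          exact ⟨g * k, mul_smul g k x⟩
        exact (h2.closure h1) hy
    rw [dense_iff_closure_eq]
    ext y
    simp only [mem_univ, iff_true]
    have : y.1 ∈ W := by rw [hW]; exact y.2
    obtain ⟨y', hy', e⟩ := this
    rwa [Subtype.ext e] at hy'⟩
  let U : Set Z := {ω | ω.1 1 = true}
  have hU : IsOpen U := by
    have : U = (fun ω : Z => ω.1 1) ⁻¹' {true} := rfl
    rw [this]
    exact (isOpen_discrete {true}).preimage ((Shift.continuous_eval 1).comp continuous_subtype_val)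
  have hUn : U.Nonempty := by
    obtain ⟨ω, hω⟩ := hZn
    obtain ⟨f, hf, h⟩ := (hZY hω).1 1
    refine ⟨⟨f • ω, hZi f ω hω⟩, ?_⟩
    change (f • ω) 1 = true
    rw [Shift.smul_apply, one_mul]
    simpa using h
  obtain ⟨g, hg, hg1, ω, h1, h2⟩ := hT Z U hU hUn
  refine (hZY ω.2).2 g hg hg1 1 ⟨h1, ?_⟩
  have h3 : (g • ω).1 1 = true := h2
  rw [hval, Shift.smul_apply, one_mul] at h3
  simpa using h3

/-- If for every `n` the set `R` contains all quotients `k⁻¹ k'` (`k ≠ k'`) of some set `K` with at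
least `n` elements, then `R` is a set of measurable recurrence. -/
theorem measRec_of_finset (R : Set G)
    (h : ∀ n : ℕ, ∃ K : Finset G, n ≤ K.card ∧ ∀ k ∈ K, ∀ k' ∈ K, k ≠ k' → k⁻¹ * k' ∈ R) :
    MeasRec R := by
  classical
  intro X _ μ _ _ _ _ A hA hμA
  obtain ⟨n, hn⟩ := ENNReal.exists_nat_mul_gt hμA.ne' (ENNReal.one_ne_top)
  obtain ⟨K, hK, hKR⟩ := h n
  by_contra hcon
  push Not at hcon
  -- the sets `k • A`
  have hm : ∀ k : G, MeasurableSet ((fun x => k⁻¹ • x) ⁻¹' A) := fun k =>
    measurable_const_smul _ hA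
  have hdisj : Set.Pairwise (K : Set G)
      (Function.onFun (AEDisjoint μ) fun k => (fun x => k⁻¹ • x) ⁻¹' A) := by
    intro k hk k' hk' hne
    change μ _ = 0
    have h1 := hcon (k'⁻¹ * k) (hKR k' hk' k hk hne.symm) (by
      intro e; exact hne (by rw [inv_mul_eq_one] at e; exact e.symm))
    rw [nonpos_iff_eq_zero] at h1
    have h2 : μ ((fun x => k⁻¹ • x) ⁻¹' (A ∩ (fun x => (k'⁻¹ * k) • x) ⁻¹' A)) = 0 := by
      rw [measure_preimage_smul]
      exact h1
    convert h2 using 2
    ext x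
    simp [mul_smul]
  have h3 := measure_biUnion_finset₀ hdisj (fun k _ => (hm k).nullMeasurableSet)
  have h4 : ∀ k ∈ K, μ ((fun x => k⁻¹ • x) ⁻¹' A) = μ A := fun k _ => measure_preimage_smul μ _ A
  rw [Finset.sum_congr rfl h4, Finset.sum_const, nsmul_eq_mul] at h3
  have h5 : (K.card : ENNReal) * μ A ≤ 1 := by
    rw [← h3]; exact prob_le_one
  have h6 : (n : ENNReal) * μ A ≤ K.card * μ A := by gcongr
  exact absurd (hn.trans_le (h6.trans h5)) (lt_irrefl _)

end Pool.Agent.H771R2.Rec
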